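import Mathlib

/-! Pairs of an algebraic number and one of its irreducible integral polynomials. -/

set_option autoImplicit false

namespace Pool.Agent.Helper203.AC

open Polynomial

lemma uniq {f g : ℤ[X]} {r : ℕ} (hr : 0 < r) {x : ℂ} (hf : Irreducible f) (hg : Irreducible g)
    (hfd : f.natDegree = r) (hgd : g.natDegree = r) (hfx : aeval x f = 0) (hgx : aeval x g = 0) :
    f = g ∨ f = -g := by
  have key : ∀ {f g : ℤ[X]}, Irreducible f → Irreducible g → f.natDegree = r → g.natDegree = r →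
      aeval x f = 0 → aeval x g = 0 → f ∣ g := by
    intro f g hf hg hfd hgd hfx hgx
    have pf := hf.isPrimitive (by omega)
    have pg := hg.isPrimitive (by omega)
    rw [IsPrimitive.Int.dvd_iff_map_cast_dvd_map_cast f g pf]
    · have if' : Irreducible (f.map (Int.castRingHom ℚ)) :=
        (IsPrimitive.Int.irreducible_iff_irreducible_map_cast pf).1 hf
      have e1 : aeval x (f.map (Int.castRingHom ℚ)) = 0 := by
        have := aeval_map_algebraMap (A := ℚ) x f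
        rw [← this] at hfx
        exact hfx
      have e2 : aeval x (g.map (Int.castRingHom ℚ)) = 0 := by
        have := aeval_map_algebraMap (A := ℚ) x g
        rw [← this] at hgx
        exact hgx
      have h1 := minpoly.eq_of_irreducible if' e1
      have h2 : minpoly ℚ x ∣ g.map (Int.castRingHom ℚ) := minpoly.dvd ℚ x e2
      rw [← h1] at h2
      exact (dvd_mul_right _ _).trans h2
  obtain ⟨c, hc⟩ := associated_of_dvd_dvd (key hf hg hfd hgd hfx hgx) (key hg hf hgd hfd hgx hfx)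
  obtain ⟨s, hs, hsc⟩ := Polynomial.isUnit_iff.1 c.isUnit
  rw [← hsc] at hc
  rcases Int.isUnit_iff.1 hs with h | h
  · left
    rw [← hc, h]
    simp
  · right
    rw [← hc, h]
    simp

/-- the pairs over a finite set -/
lemma pairs (r : ℕ) (hr : 0 < r) (X : Set ℂ) (hX : X.Finite) :
    {t : ℤ[X] × ℂ | Irreducible t.1 ∧ t.1.natDegree = r ∧ aeval t.2 t.1 = 0 ∧ t.2 ∈ X}.Finite ∧
    {t : ℤ[X] × ℂ | Irreducible t.1 ∧ t.1.natDegree = r ∧ aeval t.2 t.1 = 0 ∧ t.2 ∈ X}.ncard ≤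
      2 * X.ncard := by
  set Y := {t : ℤ[X] × ℂ | Irreducible t.1 ∧ t.1.natDegree = r ∧ aeval t.2 t.1 = 0 ∧ t.2 ∈ X}
    with hY
  set Yp := {t : ℤ[X] × ℂ | t ∈ Y ∧ 0 < t.1.leadingCoeff} with hYp
  set Ym := {t : ℤ[X] × ℂ | t ∈ Y ∧ ¬ 0 < t.1.leadingCoeff} with hYm
  have hU : Y = Yp ∪ Ym := by
    ext t
    constructor
    · intro h
      by_cases h0 : 0 < t.1.leadingCoeff
      · exact Or.inl ⟨h, h0⟩
      · exact Or.inr ⟨h, h0⟩
    · rintro (h | h)
      · exact h.1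
      · exact h.1
  have ip : Set.InjOn Prod.snd Yp := by
    rintro ⟨f, x⟩ ⟨⟨h1, h2, h3, h4⟩, h5⟩ ⟨g, x'⟩ ⟨⟨k1, k2, k3, k4⟩, k5⟩ h
    simp only at h h1 h2 h3 h4 h5 k1 k2 k3 k4 k5
    subst h
    rcases uniq hr h1 k1 h2 k2 h3 k3 with e | e
    · rw [e]
    · rw [e, leadingCoeff_neg] at h5
      omega
  have im : Set.InjOn Prod.snd Ym := by
    rintro ⟨f, x⟩ ⟨⟨h1, h2, h3, h4⟩, h5⟩ ⟨g, x'⟩ ⟨⟨k1, k2, k3, k4⟩, k5⟩ h
    simp only at h h1 h2 h3 h4 h5 k1 k2 k3 k4 k5
    subst h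
    rcases uniq hr h1 k1 h2 k2 h3 k3 with e | e
    · rw [e]
    · rw [e, leadingCoeff_neg] at h5
      have : g.leadingCoeff ≠ 0 := leadingCoeff_ne_zero.2 k1.ne_zero
      omega
  have sp : Prod.snd '' Yp ⊆ X := by
    rintro _ ⟨t, ht, rfl⟩
    exact ht.1.2.2.2
  have sm : Prod.snd '' Ym ⊆ X := by
    rintro _ ⟨t, ht, rfl⟩
    exact ht.1.2.2.2
  have fp : Yp.Finite := Set.Finite.of_finite_image (hX.subset sp) ip
  have fm : Ym.Finite := Set.Finite.of_finite_image (hX.subset sm) im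
  refine ⟨by rw [hU]; exact fp.union fm, ?_⟩
  rw [hU]
  have c1 : Yp.ncard ≤ X.ncard := by
    rw [← ip.ncard_image]
    exact Set.ncard_le_ncard sp hX
  have c2 : Ym.ncard ≤ X.ncard := by
    rw [← im.ncard_image]
    exact Set.ncard_le_ncard sm hX
  exact (Set.ncard_union_le _ _).trans (by omega)

end Pool.Agent.Helper203.AC
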