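import Pool.Agent.Results.MP_44a246_nt.AllCurves
import Pool.Agent.H107.MetricFam

/-! The reduction of the exceptional points of a curve to those of the line, pointwise. -/

set_option autoImplicit false

namespace Pool.Agent.Helper203.AC

open Polynomial IntermediateField IsDedekindDomain NumberField
open Pool.Agent.Results.MP_44a246_nt.AllCurves

theorem reduce (A : Type) [CommRing A] [IsDedekindDomain A] [Algebra ℚ A] [Algebra ℚ[X] A]
    [IsScalarTower ℚ ℚ[X] A] [Module.Finite ℚ[X] A] [FaithfulSMul ℚ[X] A]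
    (r q : ℕ) (hr : 2 ≤ r) (hq : 3 ≤ q) (a : Fin q → ℚ)
    (u : Fin q → ℕ) (y : ∀ j, Fin (u j) → A) (E : Fin q → Ideal A) (hE : ∀ j, E j ≠ ⊥)
    (hyE : ∀ j i, ∀ e ∈ E j,
      y j i * e ∈ (Ideal.span {coord A - algebraMap ℚ[X] A (C (a j))}).radical)
    (S : Finset ℕ) (hS : ∀ p ∈ S, p.Prime) (κ C₀ ε : ℝ) (hε : 0 < ε) :
    ∃ (S' : Finset ℕ) (C₁ : ℝ) (F : Set ℂ), (∀ p ∈ S', p.Prime) ∧ F.Finite ∧
      ∀ (x : ℂ) (f : ℤ[X]), Irreducible f → f.natDegree = r → aeval x f = 0 → x ∉ F →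
      ∀ (L : IntermediateField ℚ ℂ) (_ : NumberField L) (φ : A →+* L), (φ (coord A) : ℂ) = x →
        truncated S a u y L φ + logDisc L + C₀ < (degree E - κ) * height f →
        Pool.Agent.W223.VD.Points.truncated S' (fun j => Pool.Agent.W223.AC.pt (a j)) x +
          Pool.Agent.W223.VD.Points.logDisc x + C₁ <
          (q - (κ - ε)) * Pool.Agent.W223.VD.Points.height f := by
  classical
  obtain ⟨M, Ck, G, hM, hCk, hG, hkey⟩ := Pool.Agent.W223.AC.key partNB
    Pool.Agent.W460.AC.t Pool.Agent.W989.AC.MULT.t Pool.Agent.W597.AC.t A (by omega : 1 ≤ q)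
    a u y E hE hyE ε hε
  set P : Fin q → ℤ × ℤ := fun j => Pool.Agent.W223.AC.pt (a j) with hPd
  have hP : ∀ j, IsCoprime (P j).1 (P j).2 := fun j => Pool.Agent.W223.AC.pt_coprime (a j)
  set S' := S ∪ M.primeFactors with hS'
  have hS'p : ∀ p ∈ S', p.Prime := by
    intro p hp
    rcases Finset.mem_union.mp hp with h | h
    · exact hS p h
    · exact Nat.prime_of_mem_primeFactors h
  set κ₁ := κ - ε with hκ₁
  set C₁ := C₀ - Ck with hC₁
  refine ⟨S', C₁, {x | aeval x G = 0}, hS'p, ?_, ?_⟩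
  · refine (Polynomial.rootSet_finite G ℂ).subset ?_
    intro x hx
    exact (Polynomial.mem_rootSet_of_ne hG).mpr hx
  intro x f hf hd hx hGx L hLN φ hφ hv
  replace hGx : ¬ aeval x G = 0 := hGx
  by_contra hcon
  rw [not_lt] at hcon
  have hxL : x ∈ L := by
    rw [← hφ]
    exact (φ (coord A)).2
  obtain ⟨hK, hfr⟩ := Pool.Agent.W223.VD.field_data (by omega) hf hd hx
  have hle : ℚ⟮x⟯ ≤ L := IntermediateField.adjoin_simple_le_iff.mpr hxL
  let : Algebra ℚ⟮x⟯ L := (IntermediateField.inclusion hle).toRingHom.toAlgebra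
  have hgen : algebraMap ℚ⟮x⟯ L (AdjoinSimple.gen ℚ x) = φ (coord A) := Subtype.ext hφ.symm
  have hxf : aeval (AdjoinSimple.gen ℚ x) f = 0 := by
    have h9 : (aeval (AdjoinSimple.gen ℚ x) f : ℚ⟮x⟯).1 = 0 := by
      have := aeval_algebraMap_apply ℂ (AdjoinSimple.gen ℚ x) f
      have h10 : algebraMap ℚ⟮x⟯ ℂ (AdjoinSimple.gen ℚ x) = x := rfl
      rw [h10, hx] at this
      exact this.symm
    exact Subtype.ext h9
  set ξ : L := φ (coord A) with hξ
  have hxfL : aeval ξ f = 0 := by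
    rw [← hgen, aeval_algebraMap_apply, hxf, map_zero]
  have hlin : ∀ j, Pool.Agent.W223.CV.lin (P j) (AdjoinSimple.gen ℚ x) ≠ 0 := fun j =>
    Pool.Agent.W598.VD.TR.L_ne_zero _ f (P j) hxf
      (Pool.Agent.W223.VD.value_ne_zero hr hf hd (P j) (hP j))
  have hGξ : aeval ξ G ≠ 0 := by
    intro h9
    apply hGx
    have h10 := aeval_algebraMap_apply ℂ ξ G
    have h11 : algebraMap L ℂ ξ = x := hφ
    rw [h11] at h10
    rw [h10, h9, map_zero]
  have hne : ∀ j, ξ ≠ (a j : L) := by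
    intro j h9
    have h10 : Pool.Agent.W223.CV.lin (P j) ξ = 0 := by
      unfold Pool.Agent.W223.CV.lin
      rw [h9]
      have h11 : ((a j : ℚ) : L) = (((a j).num : ℤ) : L) / (((a j).den : ℤ) : L) := by
        have := Rat.cast_def (K := L) (a j)
        push_cast
        exact this
      have h12 : (((a j).den : ℤ) : L) ≠ 0 := by exact_mod_cast (a j).den_nz
      show (((a j).num : ℤ) : L) - ((a j : ℚ) : L) * (((a j).den : ℤ) : L) = 0
      rw [h11, div_mul_cancel₀ _ h12, sub_self]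
    have h13 := Pool.Agent.W598.VD.TR.L_ne_zero ξ f (P j) hxfL
      (Pool.Agent.W223.VD.value_ne_zero hr hf hd (P j) (hP j))
    exact h13 h10
  -- the inequality over `ℚ(x)`
  have e1 : Pool.Agent.W223.VD.Points.truncated S' P x =
      Pool.Agent.W223.VD.cnt S' P (AdjoinSimple.gen ℚ x) / Module.finrank ℚ ℚ⟮x⟯ := by
    unfold Pool.Agent.W223.VD.Points.truncated
    rw [dif_pos hK]
    rfl
  have e2 : Pool.Agent.W223.VD.Points.logDisc x =
      Real.log |(discr ℚ⟮x⟯ : ℝ)| / Module.finrank ℚ ℚ⟮x⟯ := by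
    unfold Pool.Agent.W223.VD.Points.logDisc
    rw [dif_pos hK]
  rw [e1, e2] at hcon
  -- base change to `L`
  have hrel := Pool.Agent.W469.CV.REL.t ℚ⟮x⟯ L q S' P (AdjoinSimple.gen ℚ x) hlin
  rw [hgen] at hrel
  have hkpos : (0 : ℝ) < Module.finrank ℚ ℚ⟮x⟯ := by exact_mod_cast Module.finrank_pos
  have hLpos : (0 : ℝ) < Module.finrank ℚ L := by exact_mod_cast Module.finrank_pos
  have htow : (Module.finrank ℚ L : ℝ) =
      Module.finrank ℚ ℚ⟮x⟯ * Module.finrank ℚ⟮x⟯ L := by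
    exact_mod_cast (Module.finrank_mul_finrank ℚ ℚ⟮x⟯ L).symm
  have h4 : Pool.Agent.W223.VD.cnt S' P (AdjoinSimple.gen ℚ x) / Module.finrank ℚ ℚ⟮x⟯ +
      Real.log |(discr ℚ⟮x⟯ : ℝ)| / Module.finrank ℚ ℚ⟮x⟯ ≤
      Pool.Agent.W223.VD.cnt S' P ξ / Module.finrank ℚ L +
        Real.log |(discr L : ℝ)| / Module.finrank ℚ L := by
    rw [← add_div, ← add_div, div_le_div_iff₀ hkpos hLpos, htow]
    have : (Pool.Agent.W223.VD.cnt S' P (AdjoinSimple.gen ℚ x) +
        Real.log |(discr ℚ⟮x⟯ : ℝ)|) *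
        (Module.finrank ℚ ℚ⟮x⟯ * Module.finrank ℚ⟮x⟯ L) =
        (Module.finrank ℚ⟮x⟯ L * (Real.log |(discr ℚ⟮x⟯ : ℝ)| +
          Pool.Agent.W223.VD.cnt S' P (AdjoinSimple.gen ℚ x))) * Module.finrank ℚ ℚ⟮x⟯ := by
      ring
    rw [this]
    refine mul_le_mul_of_nonneg_right ?_ hkpos.le
    linarith
  -- the counting function of the fibres
  have h6 := Pool.Agent.W469.CV.MH.t L ξ f hf (by omega) hxfL
  have e4 : height f = Real.log (Pool.Agent.H813R3.Voj.mahler f) / f.natDegree := rfl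
  have e5 : Pool.Agent.W223.VD.Points.height f = height f := rfl
  rw [← e4] at h6
  rw [e5] at hcon
  set ν : ℝ := (∑ j, (Module.finrank ℚ (A ⧸ E j) : ℝ)) / Module.finrank ℚ[X] A with hν
  have hν0 : 0 ≤ ν + ε := by positivity
  have h5 : Pool.Agent.W223.VD.cnt S' P ξ ≤ Pool.Agent.W223.CV.cc S
      (fun v : HeightOneSpectrum (𝓞 L) => v.valuation L ξ ≤ 1 ∧
        ∃ j, v.valuation L (ξ - (a j : L)) < 1 ∧ ∀ i, v.valuation L (φ (y j i)) < 1) +
      (ν + ε) * Real.log (Height.mulHeight₁ ξ) + Module.finrank ℚ L * Ck :=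
    hkey S L φ hGξ hne
  have e6 : truncated S a u y L φ = Pool.Agent.W223.CV.cc S
      (fun v : HeightOneSpectrum (𝓞 L) => v.valuation L ξ ≤ 1 ∧
        ∃ j, v.valuation L (ξ - (a j : L)) < 1 ∧ ∀ i, v.valuation L (φ (y j i)) < 1) /
      Module.finrank ℚ L := by
    unfold truncated
    refine congrArg (fun t : ℝ => t / Module.finrank ℚ L) ?_
    unfold Pool.Agent.W223.CV.cc
    refine finsum_congr fun v => ?_
    by_cases h : (∀ p ∈ S, (p : 𝓞 L) ∉ v.asIdeal) ∧ v.valuation L ξ ≤ 1 ∧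
        ∃ j, v.valuation L (ξ - (a j : L)) < 1 ∧ ∀ i, v.valuation L (φ (y j i)) < 1
    · rw [Pool.Agent.W223.CV.ct_pos h]
      exact if_pos h
    · rw [Pool.Agent.W223.CV.ct_neg h]
      exact if_neg h
  have h7 : Pool.Agent.W223.VD.cnt S' P ξ / Module.finrank ℚ L ≤
      truncated S a u y L φ + (ν + ε) * height f + Ck := by
    rw [e6, div_le_iff₀ hLpos, add_mul, add_mul, div_mul_cancel₀ _ hLpos.ne']
    have h8 := mul_le_mul_of_nonneg_left h6 hν0
    have h9 : (ν + ε) * (Module.finrank ℚ L * height f) =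
        (ν + ε) * height f * Module.finrank ℚ L := by ring
    rw [h9] at h8
    have h10 : (Module.finrank ℚ L : ℝ) * Ck = Ck * Module.finrank ℚ L := mul_comm _ _
    rw [h10] at h5
    exact h5.trans (by linarith)
  have e7 : logDisc L = Real.log |(discr L : ℝ)| / Module.finrank ℚ L := rfl
  have e8 : degree E = q - ν := rfl
  rw [e7, e8] at hv
  have h11 : ((q : ℝ) - κ₁) * height f = (q - ν - κ) * height f + (ν + ε) * height f := by
    rw [hκ₁]; ring
  rw [h11] at hcon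
  rw [hC₁] at hcon
  linarith

end Pool.Agent.Helper203.AC
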